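import Pool.Agent.Helper65.Delone.Goals

/-! Packet F: transport of the fixed planes and step I. -/

namespace Pool.Agent.Helper35.Delone

open Module Pool.Agent.Helper65.Delone
open scoped RealInnerProductSpace

variable {E : Type*} [NormedAddCommGroup E] [InnerProductSpace ℝ E] [FiniteDimensional ℝ E]

theorem transport : Transport E := by
  intro X L W S Q hF x hx x' hx' B hB z hz hzx
  have hW := hF.W_pos
  have huL : ‖z - x‖ ≤ L := by linarith
  have hz' : x' + B (z - x) ∈ X := by
    refine (hB (z - x) huL).1 ?_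
    rw [add_sub_cancel]
    exact hz
  refine ⟨hz', ?_⟩
  obtain ⟨a, b, ha, hb, hna, hnb, hspan⟩ := hF.gens z hz
  have key : ∀ c : E, z + c ∈ X → ‖c‖ ≤ W / 80 → B c ∈ Q (x' + B (z - x)) := by
    intro c hc hcn
    have h1 : ‖(z - x) + c‖ ≤ L := by
      have := norm_add_le (z - x) c
      linarith
    have h2 : x + ((z - x) + c) ∈ X := by
      have : x + ((z - x) + c) = z + c := by abel
      rw [this]
      exact hc
    have h3 := (hB ((z - x) + c) h1).1 h2
    have h5 : x' + B ((z - x) + c) - (x' + B (z - x)) = B c := by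
      rw [map_add]
      abel
    have h4 := hF.near (x' + B (z - x)) hz' (x' + B ((z - x) + c)) h3 (by
      rw [h5, B.norm_map]
      linarith)
    rwa [h5] at h4
  have hle : (Q z).map (B.toLinearEquiv : E →ₗ[ℝ] E) ≤ Q (x' + B (z - x)) := by
    rw [← hspan, Submodule.map_span, Submodule.span_le]
    rintro _ ⟨c, hc, rfl⟩
    rcases hc with hc | hc
    · rw [hc]
      exact key a ha hna
    · rw [Set.mem_singleton_iff.1 hc]
      exact key b hb hnb
  have heq : (Q z).map (B.toLinearEquiv : E →ₗ[ℝ] E) = Q (x' + B (z - x)) := by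
    refine Submodule.eq_of_le_of_finrank_eq hle ?_
    rw [LinearEquiv.finrank_map_eq, hF.Q_rank z hz, hF.Q_rank _ hz']
  intro v
  rw [← heq, Submodule.mem_map]
  constructor
  · intro hv
    exact ⟨v, hv, rfl⟩
  · rintro ⟨w, hw, hwv⟩
    have : w = v := B.injective hwv
    rw [← this]
    exact hw

theorem stepI (hi : Indep E) (ho : FixOrth E) : StepI E := by
  intro X L W S Q hF x hx z hz hzL hz40 hzQ
  have hW := hF.W_pos
  -- the decomposition of `z - x`
  obtain ⟨h, hh, p, hp, hsum⟩ : ∃ h ∈ Q x, ∃ p ∈ (Q x)ᗮ, z - x = h + p := by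
    exact Submodule.exists_add_mem_mem_orthogonal (K := Q x) (z - x)
  have hp0 : p ≠ 0 := by
    intro h0
    apply hzQ
    rw [hsum, h0, add_zero]
    exact hh
  have hpx : p ∉ Q x := by
    intro hpq
    have := (Submodule.mem_orthogonal (Q x) p).1 hp p hpq
    exact hp0 (inner_self_eq_zero.1 this)
  have core : ∀ A ∈ S x, LinearIndependent ℝ ![A p - p, A.symm p - p] ∧
      A p - p ∈ Q z ∧ A.symm p - p ∈ Q z ∧ A (A p) - p ∈ Q z ∧
      Submodule.span ℝ {A p - p, A.symm p - p} = Q z := by
    intro A hA
    have hAiso := hF.S_iso x hx A hA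
    have hAs := hF.S_small x hx A hA
    have hAh : A h = h := (hF.S_fix x hx A hA h).2 hh
    have hAh' : A.symm h = h := by
      rw [LinearIsometryEquiv.symm_apply_eq]
      exact hAh.symm
    have hAp : A p ≠ p := fun h1 => hpx ((hF.S_fix x hx A hA p).1 h1)
    have hind := hi A hAs p hAp
    set u := z - x with hu
    have hxu : x + u ∈ X := by
      rw [hu, add_sub_cancel]
      exact hz
    have e1 : x + A u ∈ X := (hAiso u hzL).1 hxu
    have e2 : x + A.symm u ∈ X := by
      refine (hAiso (A.symm u) ?_).2 ?_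
      · rw [LinearIsometryEquiv.norm_map]
        exact hzL
      · rw [LinearIsometryEquiv.apply_symm_apply]
        exact hxu
    have e3 : x + A (A u) ∈ X := by
      refine (hAiso (A u) ?_).1 e1
      rw [LinearIsometryEquiv.norm_map]
      exact hzL
    have w1 : A u - u = A p - p := by
      rw [hsum, map_add, hAh]
      abel
    have w2 : A.symm u - u = A.symm p - p := by
      rw [hsum, map_add, hAh']
      abel
    have w3 : A (A u) - u = A (A p) - p := by
      rw [hsum, map_add, map_add, hAh, hAh]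
      abel
    have n1 : ‖A u - u‖ ≤ ‖u‖ / 80 := hAs u
    have n2 : ‖A.symm u - u‖ ≤ ‖u‖ / 80 := by
      have := hAs (A.symm u)
      rw [LinearIsometryEquiv.apply_symm_apply, LinearIsometryEquiv.norm_map, norm_sub_rev] at this
      exact this
    have n3 : ‖A (A u) - u‖ ≤ 2 * ‖u‖ / 80 := by
      have h1 := hAs (A u)
      rw [LinearIsometryEquiv.norm_map] at h1
      have h2 : A (A u) - u = (A (A u) - A u) + (A u - u) := by abel
      rw [h2]
      have := norm_add_le (A (A u) - A u) (A u - u)
      linarith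
    have near' : ∀ t : E, x + t ∈ X → ‖t - u‖ < W → t - u ∈ Q z := by
      intro t ht htn
      have h1 : x + t - z = t - u := by rw [hu]; abel
      have := hF.near z hz (x + t) ht (by rw [h1]; exact htn)
      rwa [h1] at this
    have m1 : A p - p ∈ Q z := by
      rw [← w1]
      exact near' _ e1 (by linarith)
    have m2 : A.symm p - p ∈ Q z := by
      rw [← w2]
      exact near' _ e2 (by linarith)
    have m3 : A (A p) - p ∈ Q z := by
      rw [← w3]
      exact near' _ e3 (by linarith)
    refine ⟨hind, m1, m2, m3, ?_⟩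
    refine Submodule.eq_of_le_of_finrank_eq ?_ ?_
    · rw [Submodule.span_le]
      rintro c (hc | hc)
      · rw [hc]
        exact m1
      · rw [Set.mem_singleton_iff.1 hc]
        exact m2
    · rw [hF.Q_rank z hz]
      have := finrank_span_eq_card hind
      rw [Matrix.range_cons, Matrix.range_cons, Matrix.range_empty, Set.union_empty,
        Set.singleton_union] at this
      rw [this]
      rfl
  have orth : ∀ u ∈ Q x, ∀ w ∈ Q z, ⟪u, w⟫ = 0 := by
    obtain ⟨A, hA⟩ := hF.S_ne x hx
    obtain ⟨hind, m1, m2, m3, hspan⟩ := core A hA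
    intro u hu w hw
    have hAu : A u = u := (hF.S_fix x hx A hA u).2 hu
    have hAu' : A.symm u = u := by
      rw [LinearIsometryEquiv.symm_apply_eq]
      exact hAu.symm
    rw [← hspan] at hw
    obtain ⟨s, t, hst⟩ := Submodule.mem_span_pair.1 hw
    have o1 := ho A p u hAu
    have o2 := ho A.symm p u hAu'
    rw [← hst, inner_add_right, inner_smul_right, inner_smul_right, real_inner_comm, o1,
      real_inner_comm, o2]
    simp
  have inv : ∀ A ∈ S x, ∀ w ∈ Q z, A w ∈ Q z := by
    intro A hA w hw
    obtain ⟨hind, m1, m2, m3, hspan⟩ := core A hA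
    rw [← hspan] at hw
    obtain ⟨s, t, hst⟩ := Submodule.mem_span_pair.1 hw
    rw [← hst, map_add, map_smul, map_smul]
    refine Submodule.add_mem _ (Submodule.smul_mem _ _ ?_) (Submodule.smul_mem _ _ ?_)
    · rw [map_sub]
      have : A (A p) - A p = (A (A p) - p) - (A p - p) := by abel
      rw [this]
      exact Submodule.sub_mem _ m3 m1
    · rw [map_sub, LinearIsometryEquiv.apply_symm_apply]
      have : p - A p = -(A p - p) := by abel
      rw [this]
      exact Submodule.neg_mem _ m1
  refine ⟨orth, h, hh, p, ?_, hsum, hp0, fun A hA => ⟨inv A hA, (core A hA).2.2.2.2⟩⟩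
  obtain ⟨A, hA⟩ := hF.S_ne x hx
  obtain ⟨hind, m1, m2, m3, hspan⟩ := core A hA
  have hAinv := inv A hA
  -- `A - 1` on `Q z`
  let f : Q z →ₗ[ℝ] Q z :=
    (A.toLinearEquiv : E →ₗ[ℝ] E).restrict (p := Q z) (q := Q z) (fun w hw => hAinv w hw)
      - LinearMap.id
  have hf : ∀ w : Q z, ((f w : Q z) : E) = A w - w := by
    intro w
    rfl
  have hinj : Function.Injective f := by
    rw [injective_iff_map_eq_zero]
    intro w hw
    have h1 : A (w : E) - w = 0 := by
      rw [← hf w, hw]
      rfl
    have h2 : A (w : E) = w := sub_eq_zero.1 h1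
    have h3 : (w : E) ∈ Q x := (hF.S_fix x hx A hA w).1 h2
    have h4 := orth w h3 w w.2
    exact Subtype.ext (inner_self_eq_zero.1 h4)
  have hsurj : Function.Surjective f := LinearMap.injective_iff_surjective.1 hinj
  obtain ⟨p', hp'⟩ := hsurj ⟨A p - p, m1⟩
  have h5 : A (p' : E) - p' = A p - p := by
    rw [← hf p', hp']
  have h6 : A (p - (p' : E)) = p - p' := by
    rw [map_sub]
    have : A p - A (p' : E) = (A p - p) - (A (p' : E) - p') + (p - p') := by abel
    rw [this, h5]
    simp
  have h7 : p - (p' : E) ∈ Q x := (hF.S_fix x hx A hA _).1 h6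
  have h8 : ⟪p - (p' : E), p - (p' : E)⟫ = 0 := by
    conv_lhs => rw [inner_sub_right]
    have o1 : ⟪p - (p' : E), p⟫ = 0 := (Submodule.mem_orthogonal (Q x) p).1 hp _ h7
    have o2 : ⟪p - (p' : E), (p' : E)⟫ = 0 := orth _ h7 _ p'.2
    rw [o1, o2, sub_zero]
  have h9 : p - (p' : E) = 0 := inner_self_eq_zero.1 h8
  rw [sub_eq_zero.1 h9]
  exact p'.2

end Pool.Agent.Helper35.Delone
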